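import Pool.Agent.K.MP_5ee5b4_al.C2

open Pool.Agent.P.MP_5ee5b4_al in
theorem Pool.Agent.Results.MP_5ee5b4_al.InfiniteIndex.result :
    ∀ (G : Type) [Group G], IsPD3 G →
      ∀ (N : Subgroup G) [N.Normal], NoFree N → ¬ N.FiniteIndex →
        (∃ K : Subgroup N, K.FiniteIndex ∧ Group.IsSolvable K) ∨
          (¬ N.FG ∧ ⁅N, N⁆ ≠ ⊥ ∧ (∀ q : G ⧸ N, ¬ (Subgroup.zpowers q).FiniteIndex) ∧
            ∀ K ≤ N, (∀ M : Rep ℤ K, CategoryTheory.Limits.IsZero (groupHomology M 2)) ∧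
              ⁅⁅K, K⁆, ⁅K, K⁆⁆ = ⁅K, K⁆ ∧
              (∀ (P : Type) [Group P] [Finite P] (φ : K →* P),
                Function.Surjective φ → IsCyclic P) ∧
              ∀ (D : Type) [Ring D] [IsNoetherianRing D] (f : MonoidAlgebra ℤ K →+* D),
                Function.Injective f → ⁅K, K⁆ = ⊥) :=
  fun _ _ hG N hn hN hi => Pool.Agent.P.MP_5ee5b4_al.infinite_index_final hG N hn hN hi
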