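import Pool.Agent.K.MP_5ee5b4_al.C2

open Pool.Agent.P.MP_5ee5b4_al in
theorem Pool.Agent.Results.MP_5ee5b4_al.ModPBetti.result :
    ∀ (G : Type) [Group G], IsPD3 G →
      ∀ G₀ : Subgroup G, G₀.FiniteIndex → ∀ p : ℕ, p.Prime →
        ∀ φ : G₀ →* Multiplicative (Fin 4 → ZMod p), Function.Surjective φ →
          ∃ f : FreeGroup (Fin 2) →* G, Function.Injective f :=
  fun _ _ hG L hL p hp φ hφ => Pool.Agent.P.MP_5ee5b4_al.modp_final hG L hL p hp φ hφ
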