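import Pool.Agent.K.MP_5ee5b4_al.C3

open Pool.Agent.P.MP_5ee5b4_al in
theorem Pool.Agent.Results.MP_5ee5b4_al.ResidualTits.result :
    ∀ (G : Type) [Group G], IsPD3 G →
      ∀ N : Subgroup G, N.Normal → NoFree N →
        (∃ K : Subgroup N, K.FiniteIndex ∧ Group.IsSolvable K) ∨
          ∃ T : Subgroup G, T.Normal ∧ T ≤ N ∧ T ≠ ⊥ ∧
            (∀ S : Subgroup T, S.FiniteIndex → S = ⊤) ∧
            (T.FiniteIndex ∨ (¬ N.FiniteIndex ∧ T = ⁅N, N⁆)) :=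
  fun _ _ hG N hn hN => Pool.Agent.P.MP_5ee5b4_al.residual_final hG N hn hN
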