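import Pool.Agent.K.MP_5ee5b4_al.C1

open Pool.Agent.P.MP_5ee5b4_al in
theorem Pool.Agent.Results.MP_5ee5b4_al.VirtualCharacter.result :
    ∀ (G : Type) [Group G], IsPD3 G →
      ∀ N : Subgroup G, N.Normal → NoFree N →
        ∀ G₀ : Subgroup G, G₀.FiniteIndex →
          ∀ χ : G₀ →* Multiplicative ℤ, (∃ g : G₀, (g : G) ∈ N ∧ χ g ≠ 1) →
            χ.ker.FG ∧ ∀ L : Subgroup G, NoFree L →
              ∃ K : Subgroup L, K.FiniteIndex ∧ Group.IsSolvable K :=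
  fun _ _ hG N hn hN G₀ h0 χ hχ => Pool.Agent.P.MP_5ee5b4_al.main hG N hn hN G₀ h0 χ hχ
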